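import Pool.Agent.helper68.SF.SpecJ

/-!
# Project sf, module KU: the first kernel
-/

set_option autoImplicit false

namespace SF

open MeasureTheory Set
open scoped ContDiff

theorem KU_den (c d : ℤ) (hg : Int.gcd c d = 1) (x y : ℝ) (hy : 0 < y) :
    0 < ((c : ℝ) * x + d) ^ 2 + ((c : ℝ) * y) ^ 2 := by
  by_cases hc : c = 0
  · subst hc
    have hd : d ≠ 0 := by
      rintro rfl
      simp at hg
    have hd' : (d : ℝ) ≠ 0 := by exact_mod_cast hd
    have : 0 < (d : ℝ) ^ 2 := by positivity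
    simpa using this
  · have hc' : (c : ℝ) ≠ 0 := by exact_mod_cast hc
    have h1 : 0 < ((c : ℝ) * y) ^ 2 := by positivity
    have h2 : 0 ≤ ((c : ℝ) * x + d) ^ 2 := sq_nonneg _
    linarith

theorem KU : KU_stmt := by
  intro g _ v hv l l' y hl hl' hy
  have hg : Int.gcd v.1 v.2 = 1 := hv
  have hq : 0 < qq l l' y := by
    unfold qq
    positivity
  obtain ⟨q, hqd⟩ : ∃ q : ℝ, q = qq l l' y := ⟨_, rfl⟩
  rw [← hqd] at hq
  have key : ∀ x : ℝ, GG g (√((((v.1 : ℝ) * x + v.2) ^ 2 + ((v.1 : ℝ) * y) ^ 2) / y * qq l l' y)) =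
      1 / √q * b0 g (-(1 / 2) * Real.log q) (YY v x y) := by
    intro x
    rw [← hqd]
    have hD := KU_den v.1 v.2 hg x y hy
    unfold GG b0 YY Yr
    obtain ⟨D, hDd⟩ : ∃ D : ℝ, D = ((v.1 : ℝ) * x + v.2) ^ 2 + ((v.1 : ℝ) * y) ^ 2 := ⟨_, rfl⟩
    rw [← hDd] at hD ⊢
    have e1 : Real.exp (2 * (-(1 / 2) * Real.log q)) = q⁻¹ := by
      have : 2 * (-(1 / 2) * Real.log q) = -Real.log q := by ring
      rw [this, Real.exp_neg, Real.exp_log hq]
    have e2 : √(D / y * q) = √(D / y) * √q := Real.sqrt_mul (by positivity) q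
    have e3 : √(y / D) = (√(D / y))⁻¹ := by
      rw [← Real.sqrt_inv, inv_div]
    have e4 : √(D / y * q) ^ 2 = D / y * q := Real.sq_sqrt (by positivity)
    have e5 : 1 / (D / y * q) = q⁻¹ * (y / D) := by
      field_simp
    have h6 : 0 < √(D / y) := Real.sqrt_pos.2 (by positivity)
    have h7 : 0 < √q := Real.sqrt_pos.2 hq
    rw [e1, e4, e5, e2, e3]
    field_simp
  unfold gu dX
  have key2 : (fun x => GG g (√((((v.1 : ℝ) * x + v.2) ^ 2 + ((v.1 : ℝ) * y) ^ 2) / y *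
      qq l l' y))) = fun x => 1 / √q * b0 g (-(1 / 2) * Real.log q) (YY v x y) := funext key
  rw [key2, ← hqd, deriv_const_mul_field]

end SF
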