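import Mathlib
import Pool.Agent.helper1.SF.SpecA

/-!
Module sa:LNB (MP_d52931_gt): the cone function is additive in the profile.
-/

set_option autoImplicit false

namespace SF

open Pool.Agent.helper72.Sq MeasureTheory Set
open scoped ContDiff

theorem LNB_bd (g : ℝ → ℝ) (hg : Prof g) (k : ℕ) : ∃ B : ℝ, Bd k B g := by
  have hcs : HasCompactSupport g := by
    refine HasCompactSupport.intro (isCompact_Icc (a := (1 : ℝ)) (b := 3)) ?_
    intro x hx
    by_cases h1 : x ≤ 1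
    · exact hg.lo x h1
    · have h3 : ¬ x ≤ 3 := fun h => hx ⟨(not_le.mp h1).le, h⟩
      exact hg.hi x (not_le.mp h3).le
  have h : ∀ j : ℕ, ∃ B : ℝ, ∀ a, |iteratedDeriv j g a| ≤ B := by
    intro j
    have hc : Continuous (iteratedFDeriv ℝ j g) := hg.smooth.continuous_iteratedFDeriv (by
      exact_mod_cast le_top)
    obtain ⟨C, hC⟩ := hc.bounded_above_of_compact_support (hcs.iteratedFDeriv (𝕜 := ℝ) j)
    refine ⟨C, fun a => ?_⟩
    rw [← Real.norm_eq_abs, ← norm_iteratedFDeriv_eq_norm_iteratedDeriv]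
    exact hC a
  choose B hB using h
  refine ⟨∑ j ∈ Finset.range (k + 1), |B j|, fun j hj a => ?_⟩
  calc |iteratedDeriv j g a| ≤ |B j| := (hB j a).trans (le_abs_self _)
    _ ≤ ∑ j ∈ Finset.range (k + 1), |B j| :=
      Finset.single_le_sum (f := fun j => |B j|) (fun i _ => abs_nonneg _)
        (Finset.mem_range.2 (by omega))

theorem LNB_diff (hWS : WS_stmt) (g : ℝ → ℝ) (hg : Prof g) (s y : ℝ) (hy : 0 < y) :
    DifferentiableAt ℝ (fun t => ww g s t y) 0 := by
  have h1 : ContDiffOn ℝ ∞ (fun p : ℝ × ℝ × ℝ => ww g p.1 p.2.1 p.2.2) {p | 0 < p.2.2} :=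
    (hWS g hg).1
  have ho : IsOpen {p : ℝ × ℝ × ℝ | 0 < p.2.2} :=
    isOpen_lt continuous_const (continuous_snd.comp continuous_snd)
  have h2 : DifferentiableAt ℝ (fun p : ℝ × ℝ × ℝ => ww g p.1 p.2.1 p.2.2) (s, 0, y) :=
    (h1.differentiableOn (by simp) (s, 0, y) hy).differentiableAt (ho.mem_nhds hy)
  have h3 : DifferentiableAt ℝ (fun t : ℝ => ((s, t, y) : ℝ × ℝ × ℝ)) 0 := by fun_prop
  have h4 := DifferentiableAt.comp (0 : ℝ)
    (g := fun p : ℝ × ℝ × ℝ => ww g p.1 p.2.1 p.2.2)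
    (f := fun t : ℝ => ((s, t, y) : ℝ × ℝ × ℝ)) h2 h3
  exact h4

theorem LNB_add (hLNA : LNA_stmt) (hWS : WS_stmt) (hJFD : JFD_stmt) (hJ1 : J1_stmt)
    (g h : ℝ → ℝ) (hg : Prof g) (hh : Prof h) (l l' : ℝ) (hl : 0 < l) (hl' : 0 < l') :
    jj (fun a => g a + h a) l l' = jj g l l' + jj h l l' := by
  obtain ⟨-, -, -, hadd⟩ := hLNA
  obtain ⟨C, hC, hfd⟩ := hJFD
  have key : ∀ s y : ℝ, 0 < y → dX (ww (fun a => g a + h a)) s 0 y =
      dX (ww g) s 0 y + dX (ww h) s 0 y := by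
    intro s y hy
    unfold dX
    have e1 : (fun t => ww (fun a => g a + h a) s t y) = fun t => ww g s t y + ww h s t y := by
      funext t
      exact hadd g h hg hh s t y hy
    rw [e1]
    exact deriv_fun_add (LNB_diff hWS g hg s y hy) (LNB_diff hWS h hh s y hy)
  obtain ⟨B1, hB1⟩ := LNB_bd g hg 12
  obtain ⟨B2, hB2⟩ := LNB_bd h hh 12
  have i1 := (hJ1 _ _ _ l l' (hfd g B1 hg hB1) hl hl').1
  have i2 := (hJ1 _ _ _ l l' (hfd h B2 hh hB2) hl hl').1
  unfold jj
  rw [← mul_add, ← integral_add i1 i2]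
  congr 1
  apply setIntegral_congr_fun measurableSet_Ioi
  intro y hy
  have hy' : 0 < y := hy
  simp only []
  rw [key _ y hy', mul_add]

theorem LNB (hLNA : LNA_stmt) (hWS : WS_stmt) (hJFD : JFD_stmt) (hJ1 : J1_stmt) : LNB_stmt := by
  intro T f hf
  induction T using Finset.induction_on with
  | empty =>
    refine ⟨?_, ?_⟩
    · simpa using hLNA.2.1
    · intro l l' hl hl'
      have e1 : (fun a => ∑ k ∈ (∅ : Finset ℕ), f k a) = fun _ => (0 : ℝ) := by
        funext a; simp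
      rw [e1]
      have hz : ∀ s y : ℝ, dX (ww (fun _ => 0)) s 0 y = 0 := by
        intro s y
        unfold dX
        have e2 : (fun t => ww (fun _ => 0) s t y) = fun _ => (0 : ℝ) := by
          funext t
          exact hLNA.2.2.1 s t y
        rw [e2]
        simp
      unfold jj
      simp [hz]
  | insert a T ha ih =>
    obtain ⟨ih1, ih2⟩ := ih
    have e1 : (fun x => ∑ k ∈ insert a T, f k x) = fun x => f a x + ∑ k ∈ T, f k x := by
      funext x
      rw [Finset.sum_insert ha]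
    refine ⟨?_, ?_⟩
    · rw [e1]
      exact hLNA.1 (f a) (fun x => ∑ k ∈ T, f k x) (hf a) ih1
    · intro l l' hl hl'
      rw [e1, Finset.sum_insert ha, ← ih2 l l' hl hl']
      exact LNB_add hLNA hWS hJFD hJ1 (f a) (fun x => ∑ k ∈ T, f k x) (hf a) ih1 l l' hl hl'

end SF
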