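import Pool.Agent.helper68.SF.SpecW

/-!
# Project sf, module MS: the generators of the modular group
-/

set_option autoImplicit false

namespace SF

theorem MS_den (c d : ℤ) (hg : Int.gcd c d = 1) (x y : ℝ) (hy : 0 < y) :
    0 < ((c : ℝ) * x + d) ^ 2 + ((c : ℝ) * y) ^ 2 := by
  by_cases hc : c = 0
  · subst hc
    have hd : d ≠ 0 := by
      rintro rfl
      simp at hg
    have hd' : (d : ℝ) ≠ 0 := by exact_mod_cast hd
    have : 0 < (d : ℝ) ^ 2 := by positivity
    simpa using this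
  · have hc' : (c : ℝ) ≠ 0 := by exact_mod_cast hc
    have h1 : 0 < ((c : ℝ) * y) ^ 2 := by positivity
    have h2 : 0 ≤ ((c : ℝ) * x + d) ^ 2 := sq_nonneg _
    linarith

theorem MS_bez (c d : ℤ) (hg : Int.gcd c d = 1) :
    c * Int.gcdA c d + d * Int.gcdB c d = 1 := by
  rw [← Int.gcd_eq_gcd_ab, hg]
  rfl

theorem MS_uni (a b c d : ℤ) (hg : Int.gcd c d = 1) (hdet : a * d - b * c = 1) :
    ∃ n : ℤ, ∀ x y : ℝ, 0 < y → Xr a b c d x y = XX (c, d) x y + n := by
  have hb := MS_bez c d hg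
  obtain ⟨A, hA⟩ : ∃ A : ℤ, A = Int.gcdA c d := ⟨_, rfl⟩
  obtain ⟨B, hB⟩ : ∃ B : ℤ, B = Int.gcdB c d := ⟨_, rfl⟩
  rw [← hA, ← hB] at hb
  obtain ⟨n, hn⟩ : ∃ n : ℤ, n = (a - B) * A + (b + A) * B := ⟨_, rfl⟩
  have e1 : n * c = a - B := by
    rw [hn]
    linear_combination (a - B) * hb + B * (hb - hdet)
  have e2 : n * d = b + A := by
    rw [hn]
    linear_combination (b + A) * hb + A * (hdet - hb)
  refine ⟨n, fun x y hy => ?_⟩
  have hden := MS_den c d hg x y hy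
  have e1' : (a : ℝ) = B + n * c := by
    have : ((n * c : ℤ) : ℝ) = ((a - B : ℤ) : ℝ) := by rw [e1]
    push_cast at this
    linarith
  have e2' : (b : ℝ) = -A + n * d := by
    have : ((n * d : ℤ) : ℝ) = ((b + A : ℤ) : ℝ) := by rw [e2]
    push_cast at this
    linarith
  have hXX : XX (c, d) x y = Xr B (-(A : ℝ)) c d x y := by
    rw [hA, hB]
    rfl
  rw [hXX]
  unfold Xr
  rw [e1', e2', div_add' _ _ _ hden.ne']
  congr 1
  ring

theorem MS : MS_stmt := by
  rintro ⟨c, d⟩ hv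
  have hg : Int.gcd c d = 1 := hv
  have hb := MS_bez c d hg
  obtain ⟨A, hA⟩ : ∃ A : ℤ, A = Int.gcdA c d := ⟨_, rfl⟩
  obtain ⟨B, hB⟩ : ∃ B : ℤ, B = Int.gcdB c d := ⟨_, rfl⟩
  rw [← hA, ← hB] at hb
  have hXX : ∀ x y : ℝ, XX (c, d) x y = Xr B (-(A : ℝ)) c d x y := by
    intro x y
    rw [hA, hB]
    rfl
  refine ⟨?_, ?_, ?_, ?_⟩
  · have hg' : Int.gcd d (-c) = 1 := by
      rw [Int.gcd_neg, Int.gcd_comm]
      exact hg
    obtain ⟨n, hn⟩ := MS_uni (-A) (-B) d (-c) hg' (by linear_combination hb)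
    refine ⟨n, fun x y hy => ?_⟩
    have hN : 0 < x ^ 2 + y ^ 2 := by positivity
    have hden := MS_den d (-c) hg' x y hy
    push_cast at hden
    have hkey : ((c : ℝ) * (-(x / (x ^ 2 + y ^ 2))) + d) ^ 2 + ((c : ℝ) * (y / (x ^ 2 + y ^ 2))) ^ 2 =
        (((d : ℝ) * x + -c) ^ 2 + ((d : ℝ) * y) ^ 2) / (x ^ 2 + y ^ 2) := by
      field_simp
      ring
    constructor
    · rw [← hn x y hy, hXX]
      unfold Xr
      rw [hkey]
      push_cast
      rw [div_div_eq_mul_div]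
      congr 1
      field_simp
      ring
    · show Yr c d _ _ = Yr d ((-c : ℤ) : ℝ) x y
      unfold Yr
      rw [hkey]
      push_cast
      rw [div_div_eq_mul_div, div_mul_cancel₀ _ hN.ne']
  · have hg' : Int.gcd c (c + d) = 1 := by
      rw [Int.gcd_self_add_right]
      exact hg
    obtain ⟨n, hn⟩ := MS_uni B (B - A) c (c + d) hg' (by linear_combination hb)
    refine ⟨n, fun x y hy => ?_⟩
    constructor
    · rw [← hn x y hy, hXX]
      unfold Xr
      push_cast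
      congr 1 <;> ring
    · show Yr c d _ _ = Yr c ((c + d : ℤ) : ℝ) x y
      unfold Yr
      push_cast
      congr 1
      ring
  · have hg' : Int.gcd (-c) d = 1 := by
      rw [Int.neg_gcd]
      exact hg
    obtain ⟨n, hn⟩ := MS_uni B A (-c) d hg' (by linear_combination hb)
    refine ⟨-n, fun x y hy => ?_⟩
    constructor
    · have h1 := hn x y hy
      have h2 : XX (-c, d) x y = Xr B A ((-c : ℤ) : ℝ) d x y - n := by linarith
      show XX (c, d) (-x) y = -XX (-c, d) x y + _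
      rw [h2, hXX]
      have h3 : Xr (B : ℝ) (-(A : ℝ)) c d (-x) y = -Xr B A ((-c : ℤ) : ℝ) d x y := by
        unfold Xr
        push_cast
        rw [← neg_div]
        congr 1 <;> ring
      rw [h3]
      push_cast
      ring
    · show Yr c d _ _ = Yr ((-c : ℤ) : ℝ) d x y
      unfold Yr
      push_cast
      congr 1
      ring
  · have hg' : Int.gcd (-c) (-d) = 1 := by
      rw [Int.neg_gcd, Int.gcd_neg]
      exact hg
    have hb' := MS_bez (-c) (-d) hg'
    obtain ⟨A', hA'⟩ : ∃ A' : ℤ, A' = Int.gcdA (-c) (-d) := ⟨_, rfl⟩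
    obtain ⟨B', hB'⟩ : ∃ B' : ℤ, B' = Int.gcdB (-c) (-d) := ⟨_, rfl⟩
    rw [← hA', ← hB'] at hb'
    obtain ⟨n, hn⟩ := MS_uni (-B') A' c d hg (by linear_combination hb')
    refine ⟨n, fun x y hy => ?_⟩
    constructor
    · rw [← hn x y hy]
      show Xr ((Int.gcdB (-c) (-d) : ℤ) : ℝ) (-((Int.gcdA (-c) (-d) : ℤ) : ℝ)) ((-c : ℤ) : ℝ)
        ((-d : ℤ) : ℝ) x y = _
      rw [← hA', ← hB']
      unfold Xr
      push_cast
      congr 1 <;> ring
    · show Yr ((-c : ℤ) : ℝ) ((-d : ℤ) : ℝ) x y = Yr c d x y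
      unfold Yr
      push_cast
      congr 1
      ring

end SF
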