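import Mathlib
import Pool.Agent.helper1.SF.SpecA

/-!
Module sa:NDB (MP_d52931_gt): the contribution of a node.
-/

set_option autoImplicit false

namespace SF

open Pool.Agent.helper72.Sq MeasureTheory Set
open scoped ContDiff

theorem NDB_real (L m : ℝ) (n : ℕ) (hL : 1 ≤ L) (hm : 3 / 2 + 9 / 10 * (n : ℝ) ≤ m) :
    m ^ 24 * Real.exp (-(L * m / 10) / 96) ≤
      (24000 ^ 24 * (Nat.factorial 24 : ℝ)) * Real.exp (-(L * (15 + 9 * n) / 10000)) := by
  have hn : (0 : ℝ) ≤ n := Nat.cast_nonneg _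
  have hm0 : 0 ≤ m := by linarith
  have hL0 : 0 ≤ L := by linarith
  have h1 := Real.pow_div_factorial_le_exp (m / 24000) (by positivity) 24
  have h2 : m ^ 24 ≤ (24000 ^ 24 * (Nat.factorial 24 : ℝ)) * Real.exp (m / 24000) := by
    have hf : (0 : ℝ) < (Nat.factorial 24 : ℝ) := by positivity
    rw [div_le_iff₀ hf, div_pow, div_le_iff₀ (by positivity)] at h1
    calc m ^ 24 ≤ Real.exp (m / 24000) * (Nat.factorial 24 : ℝ) * 24000 ^ 24 := h1
      _ = _ := by ring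
  have h3 : Real.exp (m / 24000) * Real.exp (-(L * m / 10) / 96) ≤
      Real.exp (-(L * (15 + 9 * n) / 10000)) := by
    rw [← Real.exp_add]
    apply Real.exp_le_exp.mpr
    have e1 : m ≤ L * m := by nlinarith
    have e2 : L * (15 + 9 * n) ≤ L * (10 * m) := by
      apply mul_le_mul_of_nonneg_left _ hL0
      linarith
    nlinarith
  calc m ^ 24 * Real.exp (-(L * m / 10) / 96)
      ≤ ((24000 ^ 24 * (Nat.factorial 24 : ℝ)) * Real.exp (m / 24000)) *
        Real.exp (-(L * m / 10) / 96) :=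
        mul_le_mul_of_nonneg_right h2 (Real.exp_pos _).le
    _ = (24000 ^ 24 * (Nat.factorial 24 : ℝ)) *
        (Real.exp (m / 24000) * Real.exp (-(L * m / 10) / 96)) := by ring
    _ ≤ _ := mul_le_mul_of_nonneg_left h3 (by positivity)

theorem NDB (hNOD : NOD_stmt) : NDB_stmt := by
  obtain ⟨C, hC, hN⟩ := hNOD
  set K : ℝ := 24000 ^ 24 * (Nat.factorial 24 : ℝ) with hK
  have hKpos : 0 < K := by positivity
  refine ⟨C * 2 ^ 24 * 4 ^ 12 * K, by positivity, ?_⟩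
  intro L k n Q hL hQ
  obtain ⟨-, hNL, hm, hgap, hd, hNR⟩ := hQ
  set a : ℝ := len Q.1 / L with ha
  set b : ℝ := len Q.2.1 / L with hb
  set m : ℝ := len Q.2.2 / L with hmdef
  have hn : (0 : ℝ) ≤ n := Nat.cast_nonneg _
  have hm0 : 0 ≤ m := by linarith
  have ha1 : 1 ≤ a := by
    rcases hNL.1 with h | h <;> linarith
  have hb1 : 1 ≤ b := by
    rcases hNL.2.1 with h | h <;> linarith
  have hm2 : 12 / 5 ≤ m := hNL.2.2.2.1
  have hdp : (0 : ℝ) < (1 / 4) ^ (n + 1) := by positivity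
  have hd1 : ((1 : ℝ) / 4) ^ (n + 1) ≤ 1 := pow_le_one₀ (by norm_num) (by norm_num)
  have key := hN k a b m ((1 / 4) ^ (n + 1)) (L * m / 10) hNL hdp hd1 hNR hd (by positivity) (by
    have : -(L * m / 10) = -(L * m) / 10 := by ring
    rw [this]
    exact hgap)
  have hab : a + b ≤ 2 * m := by linarith
  have hab0 : 0 ≤ a + b := by linarith
  have hpow : (a + b) ^ 24 ≤ 2 ^ 24 * m ^ 24 := by
    rw [← mul_pow]
    exact pow_le_pow_left₀ hab0 hab 24
  have hdelta : (((1 : ℝ) / 4) ^ (n + 1)) ^ 12 = 1 / (4 ^ 12 * 4 ^ (12 * n)) := by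
    rw [← pow_mul, one_div, inv_pow, one_div]
    congr 1
    rw [← pow_add]
    congr 1
    ring
  have hR := NDB_real L m n hL hm
  have hGJ : GJ (pk k) L Q = jj (pk k) a m + jj (pk k) m b - jj (pk k) a b := rfl
  rw [hGJ]
  refine key.trans ?_
  rw [hdelta, div_div_eq_mul_div, div_one]
  set E : ℝ := Real.exp (-(L * m / 10) / 96) with hE
  have hEpos : 0 < E := Real.exp_pos _
  set F : ℝ := Real.exp (-(L * (15 + 9 * (n : ℝ)) / 10000)) with hF
  calc C * (a + b) ^ 24 * (4 ^ 12 * 4 ^ (12 * n)) * E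
      ≤ C * (2 ^ 24 * m ^ 24) * (4 ^ 12 * 4 ^ (12 * n)) * E := by
        gcongr
    _ = C * 2 ^ 24 * 4 ^ 12 * 4 ^ (12 * n) * (m ^ 24 * E) := by ring
    _ ≤ C * 2 ^ 24 * 4 ^ 12 * 4 ^ (12 * n) * (K * F) :=
        mul_le_mul_of_nonneg_left hR (by positivity)
    _ = C * 2 ^ 24 * 4 ^ 12 * K * 4 ^ (12 * n) * F := by ring

end SF
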