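import Pool.Agent.helper68.SF.SpecW

/-!
# Project sf, module RA: properties of the sum `ℛ`
-/

set_option autoImplicit false

namespace SF

open Pool.Agent.helper72.Sq
open scoped ContDiff

theorem RA_cS {f h : ℝ → ℝ → ℝ → ℝ} (e : ∀ s x y, 0 < y → f s x y = h s x y) :
    ∀ s x y, 0 < y → dS f s x y = dS h s x y := by
  intro s x y hy
  unfold dS
  congr 1
  funext t
  exact e t x y hy

theorem RA_cX {f h : ℝ → ℝ → ℝ → ℝ} (e : ∀ s x y, 0 < y → f s x y = h s x y) :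
    ∀ s x y, 0 < y → dX f s x y = dX h s x y := by
  intro s x y hy
  unfold dX
  congr 1
  funext t
  exact e s t y hy

theorem RA_cY {f h : ℝ → ℝ → ℝ → ℝ} (e : ∀ s x y, 0 < y → f s x y = h s x y) :
    ∀ s x y, 0 < y → dY f s x y = dY h s x y := by
  intro s x y hy
  unfold dY
  apply Filter.EventuallyEq.deriv_eq
  filter_upwards [lt_mem_nhds hy] with t ht
  exact e s x t ht

theorem RA_lS (hBS : BS_stmt) {f h : ℝ → ℝ → ℝ → ℝ} (hf : Sm f) (hh : Sm h) (a b : ℝ) :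
    ∀ s x y, 0 < y → dS (fun s x y => a * f s x y + b * h s x y) s x y =
      a * dS f s x y + b * dS h s x y := by
  intro s x y hy
  exact ((((hBS f hf).2.2.2 s x y hy).1.const_mul a).add
    (((hBS h hh).2.2.2 s x y hy).1.const_mul b)).deriv

theorem RA_lX (hBS : BS_stmt) {f h : ℝ → ℝ → ℝ → ℝ} (hf : Sm f) (hh : Sm h) (a b : ℝ) :
    ∀ s x y, 0 < y → dX (fun s x y => a * f s x y + b * h s x y) s x y =
      a * dX f s x y + b * dX h s x y := by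
  intro s x y hy
  exact ((((hBS f hf).2.2.2 s x y hy).2.1.const_mul a).add
    (((hBS h hh).2.2.2 s x y hy).2.1.const_mul b)).deriv

theorem RA_lY (hBS : BS_stmt) {f h : ℝ → ℝ → ℝ → ℝ} (hf : Sm f) (hh : Sm h) (a b : ℝ) :
    ∀ s x y, 0 < y → dY (fun s x y => a * f s x y + b * h s x y) s x y =
      a * dY f s x y + b * dY h s x y := by
  intro s x y hy
  exact ((((hBS f hf).2.2.2 s x y hy).2.2.1.const_mul a).add
    (((hBS h hh).2.2.2 s x y hy).2.2.1.const_mul b)).deriv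

/-- smooth, solution of the wave equation, with time derivative `f'` -/
def RA_Good (f f' : ℝ → ℝ → ℝ → ℝ) : Prop :=
  Sm f ∧ Wv f ∧ ∀ s x y, 0 < y → dS f s x y = f' s x y

theorem RA_lin (hBS : BS_stmt) {f f' h h' : ℝ → ℝ → ℝ → ℝ} (hf : RA_Good f f')
    (hh : RA_Good h h') (a b : ℝ) :
    RA_Good (fun s x y => a * f s x y + b * h s x y) (fun s x y => a * f' s x y + b * h' s x y) := by
  obtain ⟨hf1, hf2, hf3⟩ := hf
  obtain ⟨hh1, hh2, hh3⟩ := hh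
  obtain ⟨bf1, bf2, bf3, -⟩ := hBS f hf1
  obtain ⟨bh1, bh2, bh3, -⟩ := hBS h hh1
  refine ⟨?_, ?_, ?_⟩
  · exact (contDiffOn_const.mul hf1).add (contDiffOn_const.mul hh1)
  · intro s x y hy
    have e1 := RA_cS (RA_lS hBS hf1 hh1 a b) s x y hy
    have e2 := RA_cX (RA_lX hBS hf1 hh1 a b) s x y hy
    have e3 := RA_cY (RA_lY hBS hf1 hh1 a b) s x y hy
    rw [e1, e2, e3, RA_lS hBS bf1 bh1 a b s x y hy, RA_lX hBS bf2 bh2 a b s x y hy,
      RA_lY hBS bf3 bh3 a b s x y hy, hf2 s x y hy, hh2 s x y hy]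
    ring
  · intro s x y hy
    rw [RA_lS hBS hf1 hh1 a b s x y hy, hf3 s x y hy, hh3 s x y hy]

theorem RA_tX (f : ℝ → ℝ → ℝ → ℝ) (a : ℝ) :
    dX (fun s x y => f s (x + a) y) = fun s x y => dX f s (x + a) y := by
  funext s x y
  unfold dX
  exact deriv_comp_add_const (fun t => f s t y) a x

theorem RA_tr {f f' : ℝ → ℝ → ℝ → ℝ} (hf : RA_Good f f') (a : ℝ) :
    RA_Good (fun s x y => f s (x + a) y) (fun s x y => f' s (x + a) y) := by
  obtain ⟨hf1, hf2, hf3⟩ := hf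
  refine ⟨?_, ?_, ?_⟩
  · have h1 : ContDiffOn ℝ ∞ (fun p : ℝ × ℝ × ℝ => (p.1, p.2.1 + a, p.2.2))
        {p : ℝ × ℝ × ℝ | 0 < p.2.2} := by
      apply ContDiff.contDiffOn
      fun_prop
    exact hf1.comp h1 fun p hp => hp
  · intro s x y hy
    rw [RA_tX f a, RA_tX (dX f) a]
    exact hf2 s (x + a) y hy
  · intro s x y hy
    exact hf3 s (x + a) y hy

theorem RA_block (hBS : BS_stmt) (hK1 : K1_stmt) (hB01 : B01_stmt) (g : ℝ → ℝ) (hg : Prof g)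
    (x0 k : ℝ) : RA_Good (fun s x y => Bk g s x y x0 k) (fun s x y => Bk (DD g) s x y x0 k) := by
  obtain ⟨k1s, k1w, k1t, -⟩ := hK1 g hg
  obtain ⟨-, b1s, b1w, b1t, -⟩ := hB01 g hg
  have gk : RA_Good (k1 g) (k1 (DD g)) := ⟨k1s, k1w, k1t⟩
  have gb : RA_Good (b1 g) (b1 (DD g)) := ⟨b1s, b1w, b1t⟩
  have gE : ∀ r : ℝ, RA_Good
      (fun s x y => 1 * k1 g s (x + k + r) y + (1 / 2 * Real.sign (x0 + k + r)) * b1 g s (x + k + r) y)
      (fun s x y => 1 * k1 (DD g) s (x + k + r) y +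
        (1 / 2 * Real.sign (x0 + k + r)) * b1 (DD g) s (x + k + r) y) := by
    intro r
    exact RA_lin hBS (RA_tr (RA_tr gk r) k) (RA_tr (RA_tr gb r) k) 1 _
  have h := RA_lin hBS (RA_lin hBS (RA_lin hBS (gE (1 / 5)) (gE (2 / 5)) 1 (-1)) (gE (3 / 5)) 1 (-1))
    (gE (4 / 5)) 1 1
  have e1 : ∀ g : ℝ → ℝ, (fun s x y => Bk g s x y x0 k) = fun s x y =>
      1 * (1 * (1 * (1 * k1 g s (x + k + 1 / 5) y +
        (1 / 2 * Real.sign (x0 + k + 1 / 5)) * b1 g s (x + k + 1 / 5) y) +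
        (-1) * (1 * k1 g s (x + k + 2 / 5) y +
        (1 / 2 * Real.sign (x0 + k + 2 / 5)) * b1 g s (x + k + 2 / 5) y)) +
        (-1) * (1 * k1 g s (x + k + 3 / 5) y +
        (1 / 2 * Real.sign (x0 + k + 3 / 5)) * b1 g s (x + k + 3 / 5) y)) +
      1 * (1 * k1 g s (x + k + 4 / 5) y +
        (1 / 2 * Real.sign (x0 + k + 4 / 5)) * b1 g s (x + k + 4 / 5) y) := by
    intro g
    funext s x y
    unfold Bk c5
    ring
  rw [e1 g, e1 (DD g)]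
  exact h

theorem RA_dir {f : ℝ → ℝ → ℝ → ℝ} (hf : Sm f) (s x y : ℝ) (hy : 0 < y) :
    dS f s x y = fderiv ℝ (fun p : ℝ × ℝ × ℝ => f p.1 p.2.1 p.2.2) (s, x, y) (1, 0, 0) ∧
    dX f s x y = fderiv ℝ (fun p : ℝ × ℝ × ℝ => f p.1 p.2.1 p.2.2) (s, x, y) (0, 1, 0) ∧
    dY f s x y = fderiv ℝ (fun p : ℝ × ℝ × ℝ => f p.1 p.2.1 p.2.2) (s, x, y) (0, 0, 1) := by
  have hopen : IsOpen {p : ℝ × ℝ × ℝ | 0 < p.2.2} :=
    isOpen_lt continuous_const (continuous_snd.comp continuous_snd)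
  have hd : HasFDerivAt (fun p : ℝ × ℝ × ℝ => f p.1 p.2.1 p.2.2)
      (fderiv ℝ (fun p : ℝ × ℝ × ℝ => f p.1 p.2.1 p.2.2) (s, x, y)) (s, x, y) :=
    ((hf.contDiffAt (hopen.mem_nhds hy)).differentiableAt (by simp)).hasFDerivAt
  have c1 : HasDerivAt (fun t : ℝ => (t, x, y)) ((1 : ℝ), (0 : ℝ), (0 : ℝ)) s :=
    (hasDerivAt_id s).prodMk ((hasDerivAt_const s x).prodMk (hasDerivAt_const s y))
  have c2 : HasDerivAt (fun t : ℝ => (s, t, y)) ((0 : ℝ), (1 : ℝ), (0 : ℝ)) x :=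
    (hasDerivAt_const x s).prodMk ((hasDerivAt_id x).prodMk (hasDerivAt_const x y))
  have c3 : HasDerivAt (fun t : ℝ => (s, x, t)) ((0 : ℝ), (0 : ℝ), (1 : ℝ)) y :=
    (hasDerivAt_const y s).prodMk ((hasDerivAt_const y x).prodMk (hasDerivAt_id y))
  have d1 : HasDerivAt (fun t => f t x y)
      (fderiv ℝ (fun p : ℝ × ℝ × ℝ => f p.1 p.2.1 p.2.2) (s, x, y) (1, 0, 0)) s :=
    HasFDerivAt.comp_hasDerivAt (f := fun t : ℝ => (t, x, y)) s hd c1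
  have d2 : HasDerivAt (fun t => f s t y)
      (fderiv ℝ (fun p : ℝ × ℝ × ℝ => f p.1 p.2.1 p.2.2) (s, x, y) (0, 1, 0)) x :=
    HasFDerivAt.comp_hasDerivAt (f := fun t : ℝ => (s, t, y)) x hd c2
  have d3 : HasDerivAt (fun t => f s x t)
      (fderiv ℝ (fun p : ℝ × ℝ × ℝ => f p.1 p.2.1 p.2.2) (s, x, y) (0, 0, 1)) y :=
    HasFDerivAt.comp_hasDerivAt (f := fun t : ℝ => (s, x, t)) y hd c3
  exact ⟨d1.deriv, d2.deriv, d3.deriv⟩

theorem RA_cl {F F' : ℤ → ℝ × ℝ × ℝ → ℝ} (hF : Cl F) (e : ∀ k, ∀ p ∈ HH, F' k p = F k p) :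
    Cl F' := by
  refine ⟨fun k => (hF.1 k).congr (e k), fun p0 hp0 => ?_⟩
  obtain ⟨V, δ, k0, G, h1, h2, h3, h4, h5, h6, h7, h8⟩ := hF.2 p0 hp0
  exact ⟨V, δ, k0, G, h1, h2, h3, h4, h5, h6, h7, fun k hk p hp => by
    rw [e k p (h3 hp)]
    exact h8 k hk p hp⟩

theorem RA_step (hPSA : PSA_stmt) (hPSB : PSB_stmt) (φ : ℤ → ℝ → ℝ → ℝ → ℝ)
    (h : Cl (fun k p => φ k p.1 p.2.1 p.2.2)) :
    Sm (fun s x y => ∑' k, φ k s x y) ∧ (∀ s x y, 0 < y → Summable (fun k => φ k s x y)) ∧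
    Cl (fun k p => dS (φ k) p.1 p.2.1 p.2.2) ∧ Cl (fun k p => dX (φ k) p.1 p.2.1 p.2.2) ∧
    Cl (fun k p => dY (φ k) p.1 p.2.1 p.2.2) ∧
    (∀ s x y, 0 < y → dS (fun s x y => ∑' k, φ k s x y) s x y = ∑' k, dS (φ k) s x y) ∧
    (∀ s x y, 0 < y → dX (fun s x y => ∑' k, φ k s x y) s x y = ∑' k, dX (φ k) s x y) ∧
    (∀ s x y, 0 < y → dY (fun s x y => ∑' k, φ k s x y) s x y = ∑' k, dY (φ k) s x y) := by
  obtain ⟨p1, p2, p3⟩ := hPSB _ h
  have hsm : ∀ k, Sm (φ k) := fun k => h.1 k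
  have hsum : Sm (fun s x y => ∑' k, φ k s x y) := p1
  refine ⟨hsum, fun s x y hy => p2 (s, x, y) hy, ?_, ?_, ?_, ?_, ?_, ?_⟩
  · exact RA_cl (hPSA _ h (1, 0, 0)) fun k p hp => (RA_dir (hsm k) p.1 p.2.1 p.2.2 hp).1
  · exact RA_cl (hPSA _ h (0, 1, 0)) fun k p hp => (RA_dir (hsm k) p.1 p.2.1 p.2.2 hp).2.1
  · exact RA_cl (hPSA _ h (0, 0, 1)) fun k p hp => (RA_dir (hsm k) p.1 p.2.1 p.2.2 hp).2.2
  · intro s x y hy
    rw [(RA_dir hsum s x y hy).1]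
    refine (p3 (s, x, y) hy (1, 0, 0)).trans ?_
    exact tsum_congr fun k => ((RA_dir (hsm k) s x y hy).1).symm
  · intro s x y hy
    rw [(RA_dir hsum s x y hy).2.1]
    refine (p3 (s, x, y) hy (0, 1, 0)).trans ?_
    exact tsum_congr fun k => ((RA_dir (hsm k) s x y hy).2.1).symm
  · intro s x y hy
    rw [(RA_dir hsum s x y hy).2.2]
    refine (p3 (s, x, y) hy (0, 0, 1)).trans ?_
    exact tsum_congr fun k => ((RA_dir (hsm k) s x y hy).2.2).symm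

theorem RA (hKC : KC_stmt) (hPSA : PSA_stmt) (hPSB : PSB_stmt) (hK1 : K1_stmt)
    (hB01 : B01_stmt) (hBS : BS_stmt) : RA_stmt := by
  intro g hg x0
  have hblk : ∀ k : ℤ, RA_Good (fun s x y => Bk g s x y x0 k) (fun s x y => Bk (DD g) s x y x0 k) :=
    fun k => RA_block hBS hK1 hB01 g hg x0 k
  obtain ⟨a1, a2, aS, aX, aY, dS1, dX1, dY1⟩ :=
    RA_step hPSA hPSB (fun k s x y => Bk g s x y x0 k) (hKC g hg x0)
  obtain ⟨-, -, -, -, -, dS2, -, -⟩ :=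
    RA_step hPSA hPSB (fun k => dS (fun s x y => Bk g s x y x0 k)) aS
  obtain ⟨-, xs, aXX, -, -, -, dX2, -⟩ :=
    RA_step hPSA hPSB (fun k => dX (fun s x y => Bk g s x y x0 k)) aX
  obtain ⟨-, ys, -, -, aYY, -, -, dY2⟩ :=
    RA_step hPSA hPSB (fun k => dY (fun s x y => Bk g s x y x0 k)) aY
  obtain ⟨-, -, -, aXX', -, -, -, -⟩ :=
    RA_step hPSA hPSB (fun k => dX (fun s x y => Bk g s x y x0 k)) aX
  have sXX := (RA_step hPSA hPSB (fun k => dX (dX (fun s x y => Bk g s x y x0 k))) aXX').2.1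
  have sYY := (RA_step hPSA hPSB (fun k => dY (dY (fun s x y => Bk g s x y x0 k))) aYY).2.1
  refine ⟨a1, ?_, ?_⟩
  · intro s x y hy
    have e1 : dS (dS (fun s x y => RR g s x y x0)) s x y =
        ∑' k : ℤ, dS (dS (fun s x y => Bk g s x y x0 k)) s x y :=
      (RA_cS (f := dS (fun s x y => RR g s x y x0)) dS1 s x y hy).trans (dS2 s x y hy)
    have e2 : dX (dX (fun s x y => RR g s x y x0)) s x y =
        ∑' k : ℤ, dX (dX (fun s x y => Bk g s x y x0 k)) s x y :=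
      (RA_cX (f := dX (fun s x y => RR g s x y x0)) dX1 s x y hy).trans (dX2 s x y hy)
    have e3 : dY (dY (fun s x y => RR g s x y x0)) s x y =
        ∑' k : ℤ, dY (dY (fun s x y => Bk g s x y x0 k)) s x y :=
      (RA_cY (f := dY (fun s x y => RR g s x y x0)) dY1 s x y hy).trans (dY2 s x y hy)
    have e4 : RR g s x y x0 = ∑' k : ℤ, Bk g s x y x0 k := rfl
    change dS (dS (fun s x y => RR g s x y x0)) s x y = 4 * y ^ 2 *
      (dX (dX (fun s x y => RR g s x y x0)) s x y + dY (dY (fun s x y => RR g s x y x0)) s x y) +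
      RR g s x y x0
    rw [e1, e2, e3, e4, ← (sXX s x y hy).tsum_add (sYY s x y hy), ← tsum_mul_left,
      ← (((sXX s x y hy).add (sYY s x y hy)).mul_left (4 * y ^ 2)).tsum_add (a2 s x y hy)]
    exact tsum_congr fun k => (hblk k).2.1 s x y hy
  · intro s x y hy
    refine ⟨a2 s x y hy, ?_, dX1 s x y hy, dY1 s x y hy, xs s x y hy, ys s x y hy⟩
    refine (dS1 s x y hy).trans ?_
    exact tsum_congr fun k => (hblk k).2.2 s x y hy

end SF
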