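import Pool.Agent.helper72.SF.SpecT

/-!
# Project sf, module T6: bounded perturbation of a weight
-/

set_option autoImplicit false

namespace SF

theorem T6_one (α : Type) (f f' : α → ℝ) (C R : ℝ) (hf : {a : α | f a ≤ R}.Finite)
    (hw : {a : α | |f a - R| ≤ C}.Finite) (hw' : ({a : α | f' a ≤ R}).Finite)
    (h : ∀ a, |f' a - f a| ≤ C) :
    |cn f' R - cn f R| ≤ ({a : α | |f a - R| ≤ C}.ncard : ℝ) := by
  have h1 : {a : α | f' a ≤ R} ⊆ {a : α | f a ≤ R} ∪ {a : α | |f a - R| ≤ C} := by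
    intro a ha
    have ha' : f' a ≤ R := ha
    by_cases h2 : f a ≤ R
    · exact Or.inl h2
    · right
      have h3 := abs_le.1 (h a)
      show |f a - R| ≤ C
      rw [abs_le]
      constructor <;> linarith [h3.1, h3.2, not_le.1 h2]
  have h2 : {a : α | f a ≤ R} ⊆ {a : α | f' a ≤ R} ∪ {a : α | |f a - R| ≤ C} := by
    intro a ha
    have ha' : f a ≤ R := ha
    by_cases h2 : f' a ≤ R
    · exact Or.inl h2
    · right
      have h3 := abs_le.1 (h a)
      show |f a - R| ≤ C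
      rw [abs_le]
      constructor <;> linarith [h3.1, h3.2, not_le.1 h2]
  have h3 : {a : α | f' a ≤ R}.ncard ≤ {a : α | f a ≤ R}.ncard + {a : α | |f a - R| ≤ C}.ncard :=
    (Set.ncard_le_ncard h1 (hf.union hw)).trans (Set.ncard_union_le _ _)
  have h4 : {a : α | f a ≤ R}.ncard ≤ {a : α | f' a ≤ R}.ncard + {a : α | |f a - R| ≤ C}.ncard :=
    (Set.ncard_le_ncard h2 (hw'.union hw)).trans (Set.ncard_union_le _ _)
  have h3' : ({a : α | f' a ≤ R}.ncard : ℝ) ≤ {a : α | f a ≤ R}.ncard +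
      {a : α | |f a - R| ≤ C}.ncard := by exact_mod_cast h3
  have h4' : ({a : α | f a ≤ R}.ncard : ℝ) ≤ {a : α | f' a ≤ R}.ncard +
      {a : α | |f a - R| ≤ C}.ncard := by exact_mod_cast h4
  unfold cn
  rw [abs_le]
  constructor <;> linarith

theorem T6 : T6_stmt := by
  intro α f f' C hf h
  obtain ⟨hfin, hwin⟩ := hf
  have hfin' : ∀ R, {a : α | f' a ≤ R}.Finite := by
    intro R
    refine (hfin (R + C)).subset ?_
    intro a ha
    have ha' : f' a ≤ R := ha
    have h3 := abs_le.1 (h a)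
    show f a ≤ R + C
    linarith [h3.1]
  refine ⟨hfin', ?_⟩
  obtain ⟨K, hK⟩ := hwin C
  refine ⟨K, fun R hR => ?_⟩
  have hw : {a : α | |f a - R| ≤ C}.Finite := by
    refine (hfin (R + C)).subset ?_
    intro a ha
    have ha' : |f a - R| ≤ C := ha
    have h3 := abs_le.1 ha'
    show f a ≤ R + C
    linarith [h3.2]
  exact (T6_one α f f' C R (hfin R) hw (hfin' R) h).trans (hK R hR)

end SF
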